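import Pool.Agent.Results.MP_6b55e5_an.RogersQ2

set_option autoImplicit false

open MeasureTheory Set
open scoped Pointwise

namespace Pool.Agent.Results.MP_6b55e5_an.RogersQ1

open Pool.Agent.Results.MP_6b55e5_an.RogersQ2 (Plane IsStrip IsBesicovitch HasStripCover PropertyS)

/-- A strictly increasing function; its values on `[0, 1)` form a null set. -/
noncomputable def cant (t : ℝ) : ℝ := ∑' m : ℕ, (1 / 3 : ℝ) ^ m * (⌊(2 : ℝ) ^ m * t⌋ : ℝ)

/-- The arcs `y = x ^ 2 + cant t`, `0 ≤ x ≤ 1`, of parabolas, for `0 ≤ t < 1`. -/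
def arcs : Set Plane :=
  {v | 0 ≤ v 0 ∧ v 0 ≤ 1 ∧ ∃ t : ℝ, 0 ≤ t ∧ t < 1 ∧ v 1 = v 0 ^ 2 + cant t}

namespace Aux

theorem summ (t : ℝ) : Summable (fun m : ℕ => (1 / 3 : ℝ) ^ m * (⌊(2 : ℝ) ^ m * t⌋ : ℝ)) := by
  refine Summable.of_norm_bounded (g := fun m : ℕ => (2 / 3 : ℝ) ^ m * (|t| + 1))
    ((summable_geometric_of_lt_one (by norm_num) (by norm_num)).mul_right _) fun m => ?_
  rw [norm_mul, norm_pow, Real.norm_eq_abs, Real.norm_eq_abs]
  have h1 : |(⌊(2 : ℝ) ^ m * t⌋ : ℝ)| ≤ 2 ^ m * (|t| + 1) := by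
    have a1 := Int.floor_le ((2 : ℝ) ^ m * t)
    have a2 := Int.lt_floor_add_one ((2 : ℝ) ^ m * t)
    have a3 : (1 : ℝ) ≤ 2 ^ m := one_le_pow₀ (by norm_num)
    have a4 : |(2 : ℝ) ^ m * t| = 2 ^ m * |t| := by rw [abs_mul, abs_of_pos (by positivity)]
    have a5 := neg_abs_le ((2 : ℝ) ^ m * t)
    have a6 := le_abs_self ((2 : ℝ) ^ m * t)
    rw [a4] at a5 a6
    rw [abs_le]
    constructor <;> nlinarith
  rw [abs_of_pos (by norm_num : (0 : ℝ) < 1 / 3)]
  calc (1 / 3 : ℝ) ^ m * |(⌊(2 : ℝ) ^ m * t⌋ : ℝ)| ≤ (1 / 3) ^ m * (2 ^ m * (|t| + 1)) :=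
        mul_le_mul_of_nonneg_left h1 (by positivity)
    _ = (2 / 3) ^ m * (|t| + 1) := by
        rw [← mul_assoc, ← mul_pow]
        norm_num

theorem mono : Monotone cant := by
  intro t t' h
  unfold cant
  refine Summable.tsum_le_tsum (fun m => ?_) (summ t) (summ t')
  refine mul_le_mul_of_nonneg_left ?_ (by positivity)
  exact_mod_cast Int.floor_le_floor (mul_le_mul_of_nonneg_left h (by positivity))

theorem gap {t t' : ℝ} (m : ℕ) (h : t + (1 / 2) ^ m ≤ t') : cant t + (1 / 3) ^ m ≤ cant t' := by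
  have h0 : t ≤ t' := by
    have : (0 : ℝ) < (1 / 2) ^ m := by positivity
    linarith
  have h1 : cant t' - cant t = ∑' i : ℕ, ((1 / 3 : ℝ) ^ i * (⌊(2 : ℝ) ^ i * t'⌋ : ℝ) -
      (1 / 3 : ℝ) ^ i * (⌊(2 : ℝ) ^ i * t⌋ : ℝ)) := ((summ t').tsum_sub (summ t)).symm
  have h2 := ((summ t').sub (summ t)).le_tsum m (fun i _ => by
    have h3 : ((⌊(2 : ℝ) ^ i * t⌋ : ℤ) : ℝ) ≤ (⌊(2 : ℝ) ^ i * t'⌋ : ℤ) := by
      exact_mod_cast Int.floor_le_floor (mul_le_mul_of_nonneg_left h0 (by positivity))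
    have h4 : (0 : ℝ) ≤ (1 / 3) ^ i := by positivity
    have := mul_le_mul_of_nonneg_left h3 h4
    linarith)
  rw [← h1] at h2
  have h3 : ((⌊(2 : ℝ) ^ m * t⌋ : ℤ) : ℝ) + 1 ≤ (⌊(2 : ℝ) ^ m * t'⌋ : ℤ) := by
    have h5 : ⌊(2 : ℝ) ^ m * t + 1⌋ ≤ ⌊(2 : ℝ) ^ m * t'⌋ := by
      refine Int.floor_le_floor ?_
      have h6 : (2 : ℝ) ^ m * (t + (1 / 2) ^ m) = 2 ^ m * t + 1 := by
        rw [mul_add, ← mul_pow]
        norm_num
      rw [← h6]
      exact mul_le_mul_of_nonneg_left h (by positivity)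
    rw [Int.floor_add_one] at h5
    exact_mod_cast h5
  have h4 : (0 : ℝ) ≤ (1 / 3) ^ m := by positivity
  have := mul_le_mul_of_nonneg_left h3 h4
  linarith

theorem add_one (t : ℝ) : cant (t + 1) = cant t + 3 := by
  have h1 : ∀ m : ℕ, (1 / 3 : ℝ) ^ m * (⌊(2 : ℝ) ^ m * (t + 1)⌋ : ℝ) =
      (1 / 3 : ℝ) ^ m * (⌊(2 : ℝ) ^ m * t⌋ : ℝ) + (2 / 3) ^ m := by
    intro m
    have h2 : ⌊(2 : ℝ) ^ m * (t + 1)⌋ = ⌊(2 : ℝ) ^ m * t⌋ + 2 ^ m := by
      have e : (2 : ℝ) ^ m * (t + 1) = 2 ^ m * t + ((2 ^ m : ℤ) : ℝ) := by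
        push_cast
        ring
      rw [e, Int.floor_add_intCast]
    rw [h2]
    push_cast
    rw [mul_add, ← mul_pow]
    norm_num
  unfold cant
  simp only [h1]
  rw [(summ t).tsum_add (summable_geometric_of_lt_one (by norm_num) (by norm_num)),
    tsum_geometric_of_lt_one (by norm_num) (by norm_num)]
  norm_num

theorem half {t : ℝ} (h0 : 0 ≤ t) (h2 : t < 2) : cant (t / 2) = cant t / 3 := by
  have h3 := (summ (t / 2)).tsum_eq_zero_add
  have h4 : ⌊(2 : ℝ) ^ 0 * (t / 2)⌋ = 0 := by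
    rw [Int.floor_eq_zero_iff]
    constructor
    · positivity
    · norm_num
      linarith
  rw [h4] at h3
  have h5 : ∀ m : ℕ, (1 / 3 : ℝ) ^ (m + 1) * (⌊(2 : ℝ) ^ (m + 1) * (t / 2)⌋ : ℝ) =
      1 / 3 * ((1 / 3 : ℝ) ^ m * (⌊(2 : ℝ) ^ m * t⌋ : ℝ)) := by
    intro m
    have e : (2 : ℝ) ^ (m + 1) * (t / 2) = 2 ^ m * t := by
      rw [pow_succ]
      ring
    rw [e, pow_succ]
    ring
  simp only [h5] at h3
  rw [tsum_mul_left] at h3
  unfold cant
  rw [h3]
  push_cast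
  ring

theorem cant_zero : cant 0 = 0 := by
  unfold cant
  simp

theorem cant_nonneg {t : ℝ} (h : 0 ≤ t) : 0 ≤ cant t := by
  rw [← cant_zero]
  exact mono h

theorem cant_le {t : ℝ} (h : t < 1) : cant t ≤ 3 := by
  have h1 := add_one 0
  rw [cant_zero, zero_add, zero_add] at h1
  rw [← h1]
  exact mono h.le

theorem range_null : volume (cant '' Ico 0 1) = 0 := by
  obtain ⟨R, hR⟩ : ∃ R, R = cant '' Ico (0 : ℝ) 1 := ⟨_, rfl⟩
  have hsub : R ⊆ (1 / 3 : ℝ) • R ∪ (1 / 3 : ℝ) • ((fun y => 3 + y) '' R) := by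
    intro y hy
    rw [hR] at hy
    obtain ⟨t, ⟨ht0, ht1⟩, rfl⟩ := hy
    have h1 : cant t = cant (2 * t) / 3 := by
      rw [← half (by linarith) (by linarith)]
      congr 1
      ring
    rcases lt_or_ge (2 * t) 1 with h2 | h2
    · left
      refine ⟨cant (2 * t), ?_, ?_⟩
      · rw [hR]
        exact ⟨2 * t, ⟨by linarith, h2⟩, rfl⟩
      · simp only [smul_eq_mul]
        rw [h1]
        ring
    · right
      refine ⟨3 + cant (2 * t - 1), ⟨cant (2 * t - 1), ?_, rfl⟩, ?_⟩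
      · rw [hR]
        exact ⟨2 * t - 1, ⟨by linarith, by linarith⟩, rfl⟩
      · simp only [smul_eq_mul]
        have h3 := add_one (2 * t - 1)
        rw [sub_add_cancel] at h3
        rw [h1, h3]
        ring
  have hfin : volume R ≠ ⊤ := by
    refine ne_top_of_le_ne_top (b := volume (Icc (0 : ℝ) 3)) (by simp) (measure_mono ?_)
    rw [hR]
    rintro y ⟨t, ⟨ht0, ht1⟩, rfl⟩
    exact ⟨cant_nonneg ht0, cant_le ht1⟩
  have h1 : volume R ≤ ENNReal.ofReal (1 / 3) * volume R + ENNReal.ofReal (1 / 3) * volume R := by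
    refine (measure_mono hsub).trans ((measure_union_le _ _).trans ?_)
    rw [Measure.addHaar_smul, Measure.addHaar_smul, image_add_left, measure_preimage_add]
    simp
  rw [← hR]
  by_contra hne
  have h2 : (volume R).toReal ≤ 1 / 3 * (volume R).toReal + 1 / 3 * (volume R).toReal := by
    have h3 := ENNReal.toReal_mono (by finiteness) h1
    rw [ENNReal.toReal_add (by finiteness) (by finiteness), ENNReal.toReal_mul,
      ENNReal.toReal_ofReal (by norm_num)] at h3
    exact h3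
  have h3 : 0 < (volume R).toReal := ENNReal.toReal_pos hne hfin
  linarith

theorem smono {t t' : ℝ} (h : t < t') : cant t < cant t' := by
  obtain ⟨i, hi⟩ := exists_pow_lt_of_lt_one (sub_pos.2 h) (show (1 / 2 : ℝ) < 1 by norm_num)
  have h1 := gap (t := t) (t' := t') i (by linarith)
  have h2 : (0 : ℝ) < (1 / 3) ^ i := by positivity
  linarith

theorem meas : Measurable cant := mono.measurable

/-- sets of parameters with close values -/
theorem vol_T {T : Set ℝ} (m : ℕ) (h : ∀ t ∈ T, ∀ t' ∈ T, cant t' - cant t ≤ (1 / 3) ^ m) :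
    volume T ≤ ENNReal.ofReal ((1 / 2) ^ m) := by
  have key : ∀ t ∈ T, ∀ t' ∈ T, t' - t ≤ (1 / 2) ^ m := by
    intro t ht t' ht'
    by_contra hcon
    push Not at hcon
    have h1 := gap (t := t) (t' := t + (1 / 2) ^ m) m le_rfl
    have h2 := smono (t := t + (1 / 2) ^ m) (t' := t') (by linarith)
    have h3 := h t ht t' ht'
    linarith
  refine (Real.volume_le_diam T).trans (Metric.ediam_le fun t ht t' ht' => ?_)
  rw [edist_dist, Real.dist_eq]
  refine ENNReal.ofReal_le_ofReal (abs_le.2 ⟨?_, ?_⟩)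
  · have := key t ht t' ht'
    linarith
  · have := key t' ht' t ht
    linarith

theorem prod_le {A : Set (ℝ × ℝ)} (hA : MeasurableSet A) (T : Set ℝ) (hT : ∀ z ∈ A, z.1 ∈ T)
    (m : ENNReal) (hm : ∀ t, volume (Prod.mk t ⁻¹' A) ≤ m) : volume A ≤ m * volume T := by
  rw [Measure.volume_eq_prod, Measure.prod_apply hA]
  calc ∫⁻ t, volume (Prod.mk t ⁻¹' A) ≤
      ∫⁻ t, (toMeasurable volume T).indicator (fun _ => m) t := by
        refine lintegral_mono fun t => ?_
        by_cases ht : t ∈ toMeasurable volume T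
        · rw [indicator_of_mem ht]
          exact hm t
        · rw [indicator_of_notMem ht]
          have : Prod.mk t ⁻¹' A = ∅ := by
            ext x
            simp only [mem_preimage, mem_empty_iff_false, iff_false]
            intro hx
            exact ht (subset_toMeasurable volume T (hT _ hx))
          rw [this]
          simp
    _ = m * volume T := by
        rw [lintegral_indicator (measurableSet_toMeasurable _ _), lintegral_const,
          Measure.restrict_apply_univ, measure_toMeasurable]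

/-- The parameters of the points of the arcs in a strip. -/
def par (a b c w : ℝ) : Set (ℝ × ℝ) :=
  {z | (0 ≤ z.1 ∧ z.1 < 1) ∧ (0 ≤ z.2 ∧ z.2 ≤ 1) ∧ c ≤ a * z.2 + b * (z.2 ^ 2 + cant z.1) ∧
    a * z.2 + b * (z.2 ^ 2 + cant z.1) ≤ c + w}

theorem par_meas (a b c w : ℝ) : MeasurableSet (par a b c w) := by
  have h1 : Measurable fun z : ℝ × ℝ => a * z.2 + b * (z.2 ^ 2 + cant z.1) :=
    (measurable_const.mul measurable_snd).add
      (measurable_const.mul ((measurable_snd.pow_const 2).add (meas.comp measurable_fst)))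
  unfold par
  refine MeasurableSet.inter (s₁ := {z : ℝ × ℝ | 0 ≤ z.1 ∧ z.1 < 1}) ?_
    (MeasurableSet.inter (s₁ := {z : ℝ × ℝ | 0 ≤ z.2 ∧ z.2 ≤ 1}) ?_
      (MeasurableSet.inter (s₁ := {z : ℝ × ℝ | c ≤ a * z.2 + b * (z.2 ^ 2 + cant z.1)}) ?_ ?_))
  · exact (measurableSet_le measurable_const measurable_fst).inter
      (measurableSet_lt measurable_fst measurable_const)
  · exact (measurableSet_le measurable_const measurable_snd).inter
      (measurableSet_le measurable_snd measurable_const)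
  · exact measurableSet_le measurable_const h1
  · exact measurableSet_le h1 measurable_const

theorem par_one (a b c w : ℝ) : volume (par a b c w) ≤ 1 := by
  have h1 : par a b c w ⊆ Ico (0 : ℝ) 1 ×ˢ Icc (0 : ℝ) 1 := by
    rintro z ⟨h1, h2, -⟩
    exact ⟨h1, h2⟩
  refine (measure_mono h1).trans (le_of_eq ?_)
  rw [Measure.volume_eq_prod, Measure.prod_prod]
  simp

/-- steep strips -/
theorem par_steep {a b c w : ℝ} (hw : 0 < w) (hab : a ^ 2 + b ^ 2 = 1) (hb : |b| ≤ 1 / 4) :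
    volume (par a b c w) ≤ ENNReal.ofReal (3 * w) := by
  have h1 := prod_le (par_meas a b c w) (Ico 0 1) (fun z hz => hz.1) (ENNReal.ofReal (3 * w)) (by
    intro t
    refine (Real.volume_le_diam _).trans (Metric.ediam_le fun x hx x' hx' => ?_)
    rw [edist_dist, Real.dist_eq]
    refine ENNReal.ofReal_le_ofReal ?_
    obtain ⟨-, ⟨hx0, hx1⟩, hx2, hx3⟩ := hx
    obtain ⟨-, ⟨hx0', hx1'⟩, hx2', hx3'⟩ := hx'
    simp only at hx0 hx1 hx2 hx3 hx0' hx1' hx2' hx3'
    have h2 : |(x - x') * (a + b * (x + x'))| ≤ w := by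
      rw [abs_le]
      constructor <;> nlinarith
    have h3 : 1 / 3 ≤ |a + b * (x + x')| := by
      have h4 : 24 / 25 ≤ |a| := by
        rw [← abs_of_pos (by norm_num : (0 : ℝ) < 24 / 25)]
        refine sq_le_sq.1 ?_
        have := sq_le_sq' (by linarith [abs_nonneg b] : -(1 / 4) ≤ |b|) hb
        rw [sq_abs] at this
        nlinarith
      have h5 : |b * (x + x')| ≤ 1 / 2 := by
        rw [abs_mul, abs_of_nonneg (by linarith : 0 ≤ x + x')]
        nlinarith [abs_nonneg b]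
      have h6 := abs_add_le (a + b * (x + x')) (-(b * (x + x')))
      rw [add_neg_cancel_right, abs_neg] at h6
      linarith
    rw [abs_mul] at h2
    nlinarith [abs_nonneg (x - x')])
  refine h1.trans (le_of_eq ?_)
  simp

theorem shell_t (B : ℝ) (j : ℕ) :
    volume {t : ℝ | (0 ≤ t ∧ t < 1) ∧ 9 * (1 / 3) ^ j < B - cant t ∧ B - cant t ≤ 27 * (1 / 3) ^ j} ≤
      ENNReal.ofReal (8 * (1 / 2) ^ j) := by
  rcases lt_or_ge j 3 with hj | hj
  · refine (measure_mono (t := Ico (0 : ℝ) 1) fun t ht => ht.1).trans ?_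
    rw [Real.volume_Ico]
    refine ENNReal.ofReal_le_ofReal ?_
    have : (1 / 2 : ℝ) ^ 3 ≤ (1 / 2) ^ j := pow_le_pow_of_le_one (by norm_num) (by norm_num) hj.le
    norm_num at this ⊢
    linarith
  · obtain ⟨i, rfl⟩ := Nat.exists_eq_add_of_le' hj
    refine (vol_T i ?_).trans (ENNReal.ofReal_le_ofReal ?_)
    · rintro t ⟨-, h1, h2⟩ t' ⟨-, h3, h4⟩
      have h5 : (1 / 3 : ℝ) ^ (i + 3) = (1 / 3) ^ i * (1 / 27) := by
        rw [pow_add]
        norm_num
      rw [h5] at h1 h2 h3 h4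
      have h6 : (0 : ℝ) < (1 / 3) ^ i := by positivity
      linarith
    · rw [pow_add]
      refine le_of_eq ?_
      ring

/-- the section over `t` -/
theorem section_le {x₀ q v : ℝ} (hv : 0 ≤ v) (hq : 0 < q) {S : Set ℝ}
    (hS : ∀ x ∈ S, |(x - x₀) ^ 2 - q| ≤ v) : volume S ≤ ENNReal.ofReal (4 * v / √q) := by
  have hs : 0 < √q := Real.sqrt_pos.2 hq
  have hsq : √q ^ 2 = q := Real.sq_sqrt hq.le
  have hsub : S ⊆ Icc (x₀ + √q - v / √q) (x₀ + √q + v / √q) ∪
      Icc (x₀ - √q - v / √q) (x₀ - √q + v / √q) := by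
    intro x hx
    have h1 := hS x hx
    have h2 : |(|x - x₀| - √q)| ≤ v / √q := by
      rw [le_div_iff₀ hs]
      have h3 : (|x - x₀| - √q) * (|x - x₀| + √q) = (x - x₀) ^ 2 - q := by
        have := sq_abs (x - x₀)
        nlinarith
      rw [← h3, abs_mul, abs_of_nonneg (by positivity : 0 ≤ |x - x₀| + √q)] at h1
      refine le_trans (mul_le_mul_of_nonneg_left ?_ (abs_nonneg _)) h1
      linarith [abs_nonneg (x - x₀)]
    rw [abs_le] at h2
    rcases le_total 0 (x - x₀) with h | h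
    · rw [abs_of_nonneg h] at h2
      left
      constructor <;> linarith [h2.1, h2.2]
    · rw [abs_of_nonpos h] at h2
      right
      constructor <;> linarith [h2.1, h2.2]
  refine (measure_mono hsub).trans ((measure_union_le _ _).trans ?_)
  rw [Real.volume_Icc, Real.volume_Icc, ← ENNReal.ofReal_add (by ring_nf; positivity)
    (by ring_nf; positivity)]
  refine ENNReal.ofReal_le_ofReal (le_of_eq ?_)
  ring

theorem section_neg {x₀ q v : ℝ} (hq : q ≤ 0) {S : Set ℝ}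
    (hS : ∀ x ∈ S, |(x - x₀) ^ 2 - q| ≤ v) : volume S ≤ ENNReal.ofReal (2 * √v) := by
  have hsub : S ⊆ Icc (x₀ - √v) (x₀ + √v) := by
    intro x hx
    have h1 := (abs_le.1 (hS x hx)).2
    have h2 : |x - x₀| ≤ √v := Real.abs_le_sqrt (by linarith)
    rw [abs_le] at h2
    constructor <;> linarith [h2.1, h2.2]
  refine (measure_mono hsub).trans ?_
  rw [Real.volume_Icc]
  refine ENNReal.ofReal_le_ofReal (le_of_eq ?_)
  ring

theorem q_meas (B : ℝ) : Measurable fun z : ℝ × ℝ => B - cant z.1 :=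
  measurable_const.sub (meas.comp measurable_fst)

/-- the part of the strip near the vertex line -/
theorem part_neg {a b c w x₀ B v : ℝ} (hv : 0 < v) (hv1 : v ≤ 1)
    (key : ∀ z ∈ par a b c w, |(z.2 - x₀) ^ 2 - (B - cant z.1)| ≤ v) :
    volume (par a b c w ∩ {z | B - cant z.1 ≤ 0}) ≤ ENNReal.ofReal (4 * v) := by
  obtain ⟨n, hn1, hn2⟩ := exists_nat_pow_near_of_lt_one hv hv1 (show (0 : ℝ) < 1 / 3 by norm_num)
    (by norm_num)
  have hs : (4 / 7 : ℝ) ^ (n + 1) ≤ √v := by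
    refine Real.le_sqrt_of_sq_le ?_
    rw [← pow_mul, mul_comm, pow_mul]
    refine le_trans ?_ hn1.le
    exact pow_le_pow_left₀ (by norm_num) (by norm_num) _
  have hs2 : (1 / 2 : ℝ) ^ n ≤ 2 * √v := by
    have h1 : (1 / 2 : ℝ) ^ (n + 1) ≤ (4 / 7) ^ (n + 1) :=
      pow_le_pow_left₀ (by norm_num) (by norm_num) _
    rw [pow_succ] at h1
    linarith
  have h1 := prod_le ((par_meas a b c w).inter (measurableSet_le (q_meas B) measurable_const))
    {t : ℝ | -v ≤ B - cant t ∧ B - cant t ≤ 0} (fun z hz => ⟨by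
      have h2 := (abs_le.1 (key z hz.1)).2
      have h3 := sq_nonneg (z.2 - x₀)
      linarith, hz.2⟩) (ENNReal.ofReal (2 * √v)) (by
    intro t
    rcases le_or_gt (B - cant t) 0 with hq | hq
    · exact section_neg (x₀ := x₀) (q := B - cant t) (v := v) hq fun x hx => key (t, x) hx.1
    · have : Prod.mk t ⁻¹' (par a b c w ∩ {z | B - cant z.1 ≤ 0}) = ∅ := by
        ext x
        simp only [mem_preimage, mem_empty_iff_false, iff_false]
        intro hx
        have h4 : B - cant t ≤ 0 := hx.2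
        linarith
      rw [this]
      simp)
  refine h1.trans ?_
  have h2 : volume {t : ℝ | -v ≤ B - cant t ∧ B - cant t ≤ 0} ≤ ENNReal.ofReal ((1 / 2) ^ n) := by
    refine vol_T n ?_
    rintro t ⟨h3, h4⟩ t' ⟨h5, h6⟩
    linarith
  refine (mul_le_mul_right h2 _).trans ?_
  rw [← ENNReal.ofReal_mul (by positivity)]
  refine ENNReal.ofReal_le_ofReal ?_
  have h3 : √v * √v = v := Real.mul_self_sqrt hv.le
  have h4 : 0 ≤ √v := Real.sqrt_nonneg v
  nlinarith

/-- the parts of the strip away from the vertex line -/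
theorem part_shell {a b c w x₀ B v : ℝ} (hv : 0 < v)
    (key : ∀ z ∈ par a b c w, |(z.2 - x₀) ^ 2 - (B - cant z.1)| ≤ v) (j : ℕ) :
    volume (par a b c w ∩ {z | 9 * (1 / 3) ^ j < B - cant z.1 ∧ B - cant z.1 ≤ 27 * (1 / 3) ^ j}) ≤
      ENNReal.ofReal (32 / 3 * v * (7 / 8) ^ j) := by
  have h1 := prod_le (A := par a b c w ∩
      {z | 9 * (1 / 3) ^ j < B - cant z.1 ∧ B - cant z.1 ≤ 27 * (1 / 3) ^ j})
    ((par_meas a b c w).inter ((measurableSet_lt measurable_const (q_meas B)).inter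
      (measurableSet_le (q_meas B) measurable_const)))
    {t : ℝ | (0 ≤ t ∧ t < 1) ∧ 9 * (1 / 3) ^ j < B - cant t ∧ B - cant t ≤ 27 * (1 / 3) ^ j}
    (fun z hz => ⟨hz.1.1, hz.2.1, hz.2.2⟩) (ENNReal.ofReal (4 / 3 * v * (7 / 4) ^ j)) (by
    intro t
    by_cases hq : 9 * (1 / 3) ^ j < B - cant t
    · have hp : (0 : ℝ) < (1 / 3) ^ j := by positivity
      have hq0 : 0 < B - cant t := by linarith
      refine (section_le (x₀ := x₀) (q := B - cant t) (v := v) hv.le hq0
        fun x hx => key (t, x) hx.1).trans (ENNReal.ofReal_le_ofReal ?_)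
      have hs : 3 * (4 / 7 : ℝ) ^ j ≤ √(B - cant t) := by
        refine Real.le_sqrt_of_sq_le ?_
        rw [mul_pow, ← pow_mul, mul_comm j, pow_mul]
        have h2 : ((4 / 7 : ℝ) ^ 2) ^ j ≤ (1 / 3) ^ j :=
          pow_le_pow_left₀ (by norm_num) (by norm_num) _
        linarith
      rw [div_le_iff₀ (Real.sqrt_pos.2 hq0)]
      have h3 : (7 / 4 : ℝ) ^ j * (4 / 7) ^ j = 1 := by
        rw [← mul_pow]
        norm_num
      calc 4 * v = 4 / 3 * v * (7 / 4) ^ j * (3 * (4 / 7) ^ j) := by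
            rw [show 4 / 3 * v * (7 / 4) ^ j * (3 * (4 / 7) ^ j) =
              4 * v * ((7 / 4 : ℝ) ^ j * (4 / 7) ^ j) by ring, h3, mul_one]
        _ ≤ _ := mul_le_mul_of_nonneg_left hs (by positivity)
    · have : Prod.mk t ⁻¹' (par a b c w ∩
          {z | 9 * (1 / 3) ^ j < B - cant z.1 ∧ B - cant z.1 ≤ 27 * (1 / 3) ^ j}) = ∅ := by
        ext x
        simp only [mem_preimage, mem_empty_iff_false, iff_false]
        intro hx
        exact hq hx.2.1
      rw [this]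
      simp)
  refine h1.trans ((mul_le_mul_right (shell_t B j) _).trans ?_)
  rw [← ENNReal.ofReal_mul (by positivity)]
  refine ENNReal.ofReal_le_ofReal (le_of_eq ?_)
  have h3 : (7 / 4 : ℝ) ^ j * (1 / 2) ^ j = (7 / 8) ^ j := by
    rw [← mul_pow]
    norm_num
  rw [← h3]
  ring

/-- flat strips -/
theorem par_flat {a b c w : ℝ} (hw : 0 < w) (hab : a ^ 2 + b ^ 2 = 1) (hb : 1 / 4 < |b|) :
    volume (par a b c w) ≤ ENNReal.ofReal (180 * w) := by
  have hb0 : b ≠ 0 := by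
    rintro rfl
    norm_num at hb
  obtain ⟨x₀, hx₀⟩ : ∃ x₀, x₀ = -a / (2 * b) := ⟨_, rfl⟩
  obtain ⟨B, hB⟩ : ∃ B, B = x₀ ^ 2 + (c + w / 2) / b := ⟨_, rfl⟩
  have key : ∀ z ∈ par a b c w, |(z.2 - x₀) ^ 2 - (B - cant z.1)| ≤ 2 * w := by
    rintro z ⟨-, -, h1, h2⟩
    have e : b * ((z.2 - x₀) ^ 2 - (B - cant z.1)) =
        a * z.2 + b * (z.2 ^ 2 + cant z.1) - (c + w / 2) := by
      rw [hB, hx₀]
      field_simp
      ring
    have h3 : |b * ((z.2 - x₀) ^ 2 - (B - cant z.1))| ≤ w / 2 := by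
      rw [e, abs_le]
      constructor <;> linarith
    rw [abs_mul] at h3
    nlinarith [abs_nonneg ((z.2 - x₀) ^ 2 - (B - cant z.1))]
  have hx₀' : |x₀| ≤ 2 := by
    have h1 : |a| ≤ 1 := by
      rw [abs_le]
      constructor <;> nlinarith [sq_nonneg b]
    rw [hx₀, abs_div, abs_neg, abs_mul, div_le_iff₀ (by positivity)]
    norm_num
    linarith
  rcases le_or_gt 1 (2 * w) with hv | hv
  · refine (par_one a b c w).trans ?_
    rw [← ENNReal.ofReal_one]
    exact ENNReal.ofReal_le_ofReal (by linarith)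
  have hsub : par a b c w ⊆ (par a b c w ∩ {z | B - cant z.1 ≤ 0}) ∪ ⋃ j : ℕ, (par a b c w ∩
      {z | 9 * (1 / 3) ^ j < B - cant z.1 ∧ B - cant z.1 ≤ 27 * (1 / 3) ^ j}) := by
    intro z hz
    rcases le_or_gt (B - cant z.1) 0 with hq | hq
    · exact Or.inl ⟨hz, hq⟩
    · right
      have h1 := (abs_le.1 (key z hz)).1
      have h2 : (z.2 - x₀) ^ 2 ≤ 9 := by
        obtain ⟨-, ⟨h3, h4⟩, -⟩ := hz
        rw [abs_le] at hx₀'
        nlinarith
      obtain ⟨j, hj1, hj2⟩ := exists_nat_pow_near_of_lt_one (x := (B - cant z.1) / 27)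
        (by positivity) (by
          rw [div_le_one (by norm_num)]
          linarith) (show (0 : ℝ) < 1 / 3 by norm_num) (by norm_num)
      rw [pow_succ] at hj1
      exact mem_iUnion.2 ⟨j, hz, by linarith, by linarith⟩
  refine (measure_mono hsub).trans ((measure_union_le _ _).trans ?_)
  have h1 := part_neg (v := 2 * w) (by linarith) hv.le key
  have h2 : volume (⋃ j : ℕ, (par a b c w ∩
      {z | 9 * (1 / 3) ^ j < B - cant z.1 ∧ B - cant z.1 ≤ 27 * (1 / 3) ^ j})) ≤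
      ENNReal.ofReal (512 / 3 * w) := by
    refine (measure_iUnion_le _).trans ((ENNReal.tsum_le_tsum
      fun j => part_shell (v := 2 * w) (by linarith) key j).trans ?_)
    rw [← ENNReal.ofReal_tsum_of_nonneg (fun j => by positivity)
      ((summable_geometric_of_lt_one (by norm_num) (by norm_num)).mul_left _)]
    refine ENNReal.ofReal_le_ofReal (le_of_eq ?_)
    rw [tsum_mul_left, tsum_geometric_of_lt_one (by norm_num) (by norm_num)]
    ring
  refine (add_le_add h1 h2).trans ?_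
  rw [← ENNReal.ofReal_add (by positivity) (by positivity)]
  exact ENNReal.ofReal_le_ofReal (by linarith)

theorem par_le {a b c w : ℝ} (hw : 0 < w) (hab : a ^ 2 + b ^ 2 = 1) :
    volume (par a b c w) ≤ ENNReal.ofReal (180 * w) := by
  rcases le_or_gt |b| (1 / 4) with hb | hb
  · exact (par_steep hw hab hb).trans (ENNReal.ofReal_le_ofReal (by linarith))
  · exact par_flat hw hab hb

end Aux

theorem arcs_null : volume arcs = 0 := by
  have hmp : MeasurePreserving (fun v : Plane => (v 0, v 1)) volume volume :=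
    (volume_preserving_finTwoArrow ℝ).comp (PiLp.volume_preserving_ofLp (Fin 2))
  set R : Set ℝ := toMeasurable volume (cant '' Ico 0 1) with hR
  have hRm : MeasurableSet R := measurableSet_toMeasurable _ _
  have hR0 : volume R = 0 := by rw [hR, measure_toMeasurable, Aux.range_null]
  have hTm : MeasurableSet {z : ℝ × ℝ | z.2 - z.1 ^ 2 ∈ R} :=
    hRm.preimage (measurable_snd.sub (measurable_fst.pow_const 2))
  have hT : volume {z : ℝ × ℝ | z.2 - z.1 ^ 2 ∈ R} = 0 := by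
    rw [Measure.volume_eq_prod, Measure.prod_apply hTm]
    rw [lintegral_eq_zero_iff (measurable_measure_prodMk_left hTm)]
    refine Filter.Eventually.of_forall fun x => ?_
    have e : Prod.mk x ⁻¹' {z : ℝ × ℝ | z.2 - z.1 ^ 2 ∈ R} = (fun y => y + -x ^ 2) ⁻¹' R := by
      ext y
      simp [sub_eq_add_neg]
    simp only [Pi.zero_apply]
    rw [e, measure_preimage_add_right, hR0]
  have hsub : arcs ⊆ (fun v : Plane => (v 0, v 1)) ⁻¹' {z : ℝ × ℝ | z.2 - z.1 ^ 2 ∈ R} := by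
    rintro v ⟨-, -, t, h0, h1, hv⟩
    refine subset_toMeasurable _ _ ⟨t, ⟨h0, h1⟩, ?_⟩
    simp only
    rw [hv]
    ring
  refine measure_mono_null hsub ?_
  rw [hmp.measure_preimage hTm.nullMeasurableSet, hT]

theorem arcs_bounded : Bornology.IsBounded arcs := by
  rw [Metric.isBounded_iff_subset_closedBall 0]
  refine ⟨5, ?_⟩
  rintro v ⟨h0, h1, t, ht0, ht1, hv⟩
  have h2 := Aux.cant_nonneg ht0
  have h3 := Aux.cant_le ht1
  rw [mem_closedBall_zero_iff, EuclideanSpace.norm_eq, Fin.sum_univ_two,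
    Real.sqrt_le_left (by norm_num)]
  simp only [Real.norm_eq_abs, sq_abs]
  have h4 : 0 ≤ v 1 := by
    rw [hv]
    positivity
  have h5 : v 1 ≤ 4 := by
    rw [hv]
    nlinarith
  nlinarith

/-- Any strip cover of a set containing the arcs has total width at least `1 / 180`. -/
theorem cover_ge {E : Set Plane} (hE : arcs ⊆ E) {ι : Type} (hι : Countable ι)
    (S : ι → Set Plane) (w : ι → ℝ) (hS : ∀ i, IsStrip (S i) (w i)) (hcov : E ⊆ ⋃ i, S i)
    (hw : Summable w) : 1 / 180 ≤ ∑' i, w i := by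
  choose hw0 u c hu hSe using hS
  have hu2 : ∀ i, u i 0 ^ 2 + u i 1 ^ 2 = 1 := by
    intro i
    have h1 := EuclideanSpace.norm_sq_eq (u i)
    rw [hu i, Fin.sum_univ_two, Real.norm_eq_abs, Real.norm_eq_abs, sq_abs, sq_abs] at h1
    linarith
  have hsub : Ico (0 : ℝ) 1 ×ˢ Icc (0 : ℝ) 1 ⊆ ⋃ i, Aux.par (u i 0) (u i 1) (c i) (w i) := by
    rintro ⟨t, x⟩ ⟨⟨ht0, ht1⟩, hx0, hx1⟩
    simp only at ht0 ht1 hx0 hx1
    have h1 : (!₂[x, x ^ 2 + cant t] : Plane) ∈ arcs := by
      refine ⟨?_, ?_, t, ht0, ht1, ?_⟩ <;> simp [hx0, hx1]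
    obtain ⟨i, hi⟩ := mem_iUnion.1 (hcov (hE h1))
    rw [hSe i] at hi
    obtain ⟨h2, h3⟩ := hi
    have h4 : inner ℝ (u i) (!₂[x, x ^ 2 + cant t] : Plane) =
        u i 0 * x + u i 1 * (x ^ 2 + cant t) := by
      rw [PiLp.inner_apply, Fin.sum_univ_two]
      simp [mul_comm]
    rw [h4] at h2 h3
    exact mem_iUnion.2 ⟨i, ⟨ht0, ht1⟩, ⟨hx0, hx1⟩, h2, h3⟩
  have h1 : (1 : ENNReal) ≤ ∑' i, ENNReal.ofReal (180 * w i) := by
    calc (1 : ENNReal) = volume (Ico (0 : ℝ) 1 ×ˢ Icc (0 : ℝ) 1) := by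
          rw [Measure.volume_eq_prod, Measure.prod_prod]
          simp
      _ ≤ _ := (measure_mono hsub).trans ((measure_iUnion_le _).trans
          (ENNReal.tsum_le_tsum fun i => Aux.par_le (hw0 i) (hu2 i)))
  rw [← ENNReal.ofReal_tsum_of_nonneg (fun i => by have := hw0 i; positivity) (hw.mul_left _),
    tsum_mul_left, ← ENNReal.ofReal_one,
    ENNReal.ofReal_le_ofReal_iff (mul_nonneg (by norm_num) (tsum_nonneg fun i => (hw0 i).le))] at h1
  linarith

/-- **Rogers' first question has a negative answer.** The set `arcs` is bounded and Lebesgue null,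
and every cover of it by finitely or countably many strips has total width at least `1 / 180`;
adding it to any Besicovitch set gives a Besicovitch set with the same bound, and so without
property (S); and there are such sets. -/
theorem result :
    (∃ E : Set Plane, IsBesicovitch E ∧ ¬ PropertyS E) ∧
    (∃ E : Set Plane, IsBesicovitch E ∧ ∃ ε : ℝ, 0 < ε ∧ ∀ (ι : Type) (_ : Countable ι)
      (S : ι → Set Plane) (w : ι → ℝ), (∀ i, IsStrip (S i) (w i)) → E ⊆ ⋃ i, S i →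
        Summable w → ε ≤ ∑' i, w i) ∧
    Bornology.IsBounded arcs ∧ volume arcs = 0 ∧ ¬ HasStripCover arcs (1 / 180) ∧
    (∀ E : Set Plane, IsBesicovitch E →
      IsBesicovitch (E ∪ arcs) ∧ ¬ HasStripCover (E ∪ arcs) (1 / 180)) := by
  have h1 : ∀ E : Set Plane, arcs ⊆ E → ¬ HasStripCover E (1 / 180) := by
    rintro E hE ⟨ι, hι, S, w, hS, hcov, hw, hlt⟩
    exact absurd hlt (not_lt.2 (cover_ge hE hι S w hS hcov hw))
  have h2 : ∀ E : Set Plane, IsBesicovitch E → IsBesicovitch (E ∪ arcs) := by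
    rintro E ⟨hb, h0, hs⟩
    refine ⟨hb.union arcs_bounded, measure_union_null h0 arcs_null, fun e he => ?_⟩
    obtain ⟨x, hx⟩ := hs e he
    exact ⟨x, hx.trans subset_union_left⟩
  obtain ⟨E, hE, -⟩ := RogersQ2.result
  refine ⟨⟨E ∪ arcs, h2 E hE, fun h => ?_⟩, ⟨E ∪ arcs, h2 E hE, 1 / 180, by norm_num, ?_⟩,
    arcs_bounded, arcs_null, h1 arcs subset_rfl, fun F hF => ⟨h2 F hF, h1 _ subset_union_right⟩⟩
  · exact h1 _ subset_union_right (h _ (by norm_num))
  · intro ι hι S w hS hcov hw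
    exact cover_ge subset_union_right hι S w hS hcov hw

end Pool.Agent.Results.MP_6b55e5_an.RogersQ1
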